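import Mathlib

set_option autoImplicit false

/-! # Doubling the ones in optimal integer-complexity expressions: counterexamples -/

namespace Pool.Agent.Results.MP_d302e1_nt.DoublingFails

/-- formulas built from copies of one constant (`lit`) using binary `+` and `×` -/
inductive Fml : Type
  | lit : Fml
  | add : Fml → Fml → Fml
  | mul : Fml → Fml → Fml

namespace Fml

/-- the value when the constant is `l` -/
def val (l : ℕ) : Fml → ℕ
  | lit => l
  | add a b => val l a + val l b
  | mul a b => val l a * val l b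

/-- the number of copies of the constant -/
def size : Fml → ℕ
  | lit => 1
  | add a b => size a + size b
  | mul a b => size a + size b

/-- the number of summands of the sum `e` (reading `+` as associative) which are the literal
constant; it is `0` for a product, and `1` for the literal itself -/
def lits : Fml → ℕ
  | lit => 1
  | add a b => lits a + lits b
  | mul _ _ => 0

/-- no sum occurring in the expression has four or more summands that are the literal constant -/
def Reduced : Fml → Prop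
  | lit => True
  | add a b => lits a + lits b ≤ 3 ∧ Reduced a ∧ Reduced b
  | mul a b => Reduced a ∧ Reduced b

end Fml

open Fml

/-- the `l`-complexity `‖n‖_l` -/
noncomputable def cplx (l n : ℕ) : ℕ := sInf {s | ∃ e : Fml, val l e = n ∧ size e = s}

/-- `R` is a reduced most efficient representation of `n` -/
def RME (n : ℕ) (R : Fml) : Prop := val 1 R = n ∧ size R = cplx 1 n ∧ Reduced R

lemma cplx_le {l n s : ℕ} (e : Fml) (h : val l e = n) (hs : size e = s) : cplx l n ≤ s :=
  Nat.sInf_le ⟨e, h, hs⟩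

lemma val_pos (e : Fml) : 1 ≤ val 1 e := by
  induction e with
  | lit => exact le_rfl
  | add a b iha ihb => show 1 ≤ val 1 a + val 1 b; omega
  | mul a b iha ihb => exact Nat.one_le_iff_ne_zero.2 (Nat.mul_ne_zero (by omega) (by omega))

/-- the values `‖n‖_1`, `n ≤ 47` -/
def lbT : List ℕ := [0, 1, 2, 3, 4, 5, 5, 6, 6, 6, 7, 8, 7, 8, 8, 8, 8, 9, 8, 9, 9, 9, 10, 11, 9,
  10, 10, 9, 10, 11, 10, 11, 10, 11, 11, 11, 10, 11, 11, 11, 11, 12, 11, 12, 12, 11, 12, 13]

def lb (n : ℕ) : ℕ := lbT.getD n 0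

/-- the pairs (value after doubling, number of literal summands) of the reduced most efficient
representations of `n ≤ 47` -/
def AT : List (List (ℕ × ℕ)) := [[], [(2, 1)], [(4, 2)], [(6, 3)], [(16, 0)], [(18, 1)], [(24, 0)],
  [(26, 1)], [(64, 0)], [(36, 0)], [(38, 1), (72, 0)], [(40, 2), (74, 1)], [(96, 0)], [(98, 1)],
  [(104, 0)], [(108, 0)], [(256, 0)], [(258, 1)], [(144, 0)], [(146, 1)], [(152, 0), (288, 0)],
  [(156, 0)], [(158, 1), (160, 0), (296, 0)], [(160, 2), (162, 1), (298, 1)], [(384, 0)],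
  [(324, 0), (386, 1)], [(392, 0)], [(216, 0)], [(218, 1), (416, 0)], [(220, 2), (418, 1)],
  [(228, 0), (432, 0)], [(230, 1), (434, 1)], [(1024, 0)], [(240, 0), (444, 0), (1026, 1)],
  [(1032, 0)], [(468, 0)], [(576, 0)], [(578, 1)], [(584, 0)], [(588, 0)], [(608, 0), (1152, 0)],
  [(610, 1), (1154, 1)], [(624, 0)], [(626, 1)], [(632, 0), (640, 0), (1184, 0)], [(648, 0)],
  [(650, 1)], [(652, 2)]]

def A (n : ℕ) : List (ℕ × ℕ) := AT.getD n []

lemma lb_add : ∀ i < 48, ∀ j < 48, i + j < 48 → 1 ≤ i → 1 ≤ j → lb (i + j) ≤ lb i + lb j := by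
  decide +kernel

lemma lb_mul : ∀ i < 48, ∀ j < 48, i * j < 48 → 1 ≤ i → 1 ≤ j → lb (i * j) ≤ lb i + lb j := by
  decide +kernel

lemma A_add' : ∀ i < 48, ∀ j < 48, (i + j < 48 ∧ 1 ≤ i ∧ 1 ≤ j ∧ lb (i + j) = lb i + lb j) →
    ((A i).all fun x => (A j).all fun y =>
      !(decide (x.2 + y.2 ≤ 3)) || (A (i + j)).contains (x.1 + y.1, x.2 + y.2)) = true := by
  decide +kernel

lemma A_mul' : ∀ i < 48, ∀ j < 48, (i * j < 48 ∧ 1 ≤ i ∧ 1 ≤ j ∧ lb (i * j) = lb i + lb j) →
    ((A i).all fun x => (A j).all fun y => (A (i * j)).contains (x.1 * y.1, 0)) = true := by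
  decide +kernel

lemma A_add : ∀ i < 48, ∀ j < 48, i + j < 48 → 1 ≤ i → 1 ≤ j → lb (i + j) = lb i + lb j →
    ∀ x ∈ A i, ∀ y ∈ A j, x.2 + y.2 ≤ 3 → (x.1 + y.1, x.2 + y.2) ∈ A (i + j) := by
  intro i hi j hj h1 h2 h3 h4 x hx y hy h5
  have h := A_add' i hi j hj ⟨h1, h2, h3, h4⟩
  rw [List.all_eq_true] at h
  have h6 := h x hx
  rw [List.all_eq_true] at h6
  have h7 := h6 y hy
  simpa [h5] using h7

lemma A_mul : ∀ i < 48, ∀ j < 48, i * j < 48 → 1 ≤ i → 1 ≤ j → lb (i * j) = lb i + lb j →
    ∀ x ∈ A i, ∀ y ∈ A j, (x.1 * y.1, 0) ∈ A (i * j) := by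
  intro i hi j hj h1 h2 h3 h4 x hx y hy
  have h := A_mul' i hi j hj ⟨h1, h2, h3, h4⟩
  rw [List.all_eq_true] at h
  have h6 := h x hx
  rw [List.all_eq_true] at h6
  have h7 := h6 y hy
  simpa using h7

lemma lb_le (e : Fml) (h : val 1 e < 48) : lb (val 1 e) ≤ size e := by
  induction e with
  | lit => exact le_rfl
  | add a b iha ihb =>
    have ha := val_pos a
    have hb := val_pos b
    have h' : val 1 a + val 1 b < 48 := h
    have h1 := iha (by omega)
    have h2 := ihb (by omega)
    have h3 := lb_add _ (by omega) _ (by omega) h' ha hb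
    show lb (val 1 a + val 1 b) ≤ size a + size b
    omega
  | mul a b iha ihb =>
    have ha := val_pos a
    have hb := val_pos b
    have h' : val 1 a * val 1 b < 48 := h
    have h4 : val 1 a ≤ val 1 a * val 1 b := Nat.le_mul_of_pos_right _ hb
    have h5 : val 1 b ≤ val 1 a * val 1 b := Nat.le_mul_of_pos_left _ ha
    have h1 := iha (by omega)
    have h2 := ihb (by omega)
    have h3 := lb_mul _ (by omega) _ (by omega) h' ha hb
    show lb (val 1 a * val 1 b) ≤ size a + size b
    omega

lemma mem_A (e : Fml) (h : val 1 e < 48) (hs : size e = lb (val 1 e)) (hr : Reduced e) :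
    (val 2 e, lits e) ∈ A (val 1 e) := by
  induction e with
  | lit => decide
  | add a b iha ihb =>
    have ha := val_pos a
    have hb := val_pos b
    have h' : val 1 a + val 1 b < 48 := h
    have h1 := lb_le a (by omega)
    have h2 := lb_le b (by omega)
    have h3 := lb_add _ (by omega) _ (by omega) h' ha hb
    have hs' : size a + size b = lb (val 1 a + val 1 b) := hs
    obtain ⟨hr1, hr2, hr3⟩ := hr
    exact A_add _ (by omega) _ (by omega) h' ha hb (by omega)
      _ (iha (by omega) (by omega) hr2) _ (ihb (by omega) (by omega) hr3) hr1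
  | mul a b iha ihb =>
    have ha := val_pos a
    have hb := val_pos b
    have h' : val 1 a * val 1 b < 48 := h
    have h4 : val 1 a ≤ val 1 a * val 1 b := Nat.le_mul_of_pos_right _ hb
    have h5 : val 1 b ≤ val 1 a * val 1 b := Nat.le_mul_of_pos_left _ ha
    have h1 := lb_le a (by omega)
    have h2 := lb_le b (by omega)
    have h3 := lb_mul _ (by omega) _ (by omega) h' ha hb
    have hs' : size a + size b = lb (val 1 a * val 1 b) := hs
    obtain ⟨hr2, hr3⟩ := hr
    exact A_mul _ (by omega) _ (by omega) h' ha hb (by omega)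
      _ (iha (by omega) (by omega) hr2) _ (ihb (by omega) (by omega) hr3)

lemma cplx_eq (e : Fml) (h : val 1 e < 48) (hs : size e = lb (val 1 e)) :
    cplx 1 (val 1 e) = size e := by
  apply le_antisymm (cplx_le e rfl rfl)
  refine le_csInf ⟨size e, e, rfl, rfl⟩ ?_
  rintro s ⟨f, hf, rfl⟩
  rw [hs, ← hf]
  exact lb_le f (by omega)

/-- `1 + 1` -/
def two : Fml := add lit lit
/-- `1 + 1 + 1` -/
def three : Fml := add two lit
/-- `(1 + 1 + 1)(1 + 1 + 1) + 1 + 1` -/
def e11 : Fml := add (add (mul three three) lit) lit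
/-- `(1 + 1 + 1)(1 + 1 + 1)((1 + 1)(1 + 1) + 1) + 1 + 1` -/
def e47 : Fml := add (add (mul (mul three three) (add (mul two two) lit)) lit) lit

/-- `2 * 2 * (2 + 2 * 2 * 2)`, with the constant `2` -/
def f40 : Fml := mul lit (mul lit (add lit (mul lit (mul lit lit))))

/-- an expression with twelve constants whose value is `652` for the constant `2` -/
def f652 : Fml := mul lit (add lit (mul lit (add lit (mul lit (mul lit (mul lit (mul lit
  (add lit (mul lit (add lit lit))))))))))

/-- **The statement of Q1 is false.**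
(1) The reduced most efficient representation `R = (1+1+1)(1+1+1)+1+1` of `11` becomes `40` after
doubling, and `‖40‖_2 ≤ 6 < 8 = ‖11‖_1`.
(2) Every reduced most efficient representation `R` of `47` (there is one) satisfies
`‖a(47, R)‖_2 ≤ 12 < 13 = ‖47‖_1`.
(3) So it is not true that `‖a(n, R)‖_2 = ‖n‖_1` for every `n ≥ 1` and every reduced most efficient
representation `R` of `n`, and not even that for every `n ≥ 1` some such `R` has this property. -/
theorem result :
    (RME 11 e11 ∧ cplx 1 11 = 8 ∧ val 2 e11 = 40 ∧ cplx 2 40 ≤ 6) ∧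
    (cplx 1 47 = 13 ∧ (∃ R, RME 47 R) ∧ ∀ R, RME 47 R → cplx 2 (val 2 R) ≤ 12) ∧
    (¬ ∀ n : ℕ, 1 ≤ n → ∀ R, RME n R → cplx 2 (val 2 R) = cplx 1 n) ∧
    (¬ ∀ n : ℕ, 1 ≤ n → ∃ R, RME n R ∧ cplx 2 (val 2 R) = cplx 1 n) := by
  have h11 : cplx 1 11 = 8 := cplx_eq e11 (by decide) (by decide)
  have h47 : cplx 1 47 = 13 := cplx_eq e47 (by decide) (by decide)
  have h40 : cplx 2 40 ≤ 6 := cplx_le f40 (by decide) (by decide)
  have h652 : cplx 2 652 ≤ 12 := cplx_le f652 (by decide) (by decide)
  have r11 : RME 11 e11 := ⟨by decide, by rw [h11]; decide, by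
    simp [Reduced, e11, three, two, lits]⟩
  have r47 : RME 47 e47 := ⟨by decide, by rw [h47]; decide, by
    simp [Reduced, e47, three, two, lits]⟩
  have all47 : ∀ R, RME 47 R → cplx 2 (val 2 R) ≤ 12 := by
    rintro R ⟨h1, h2, h3⟩
    have h4 := mem_A R (by omega) (by rw [h1, h2, h47]; decide) h3
    rw [h1] at h4
    have h5 : A 47 = [(652, 2)] := by decide
    rw [h5] at h4
    simp only [List.mem_singleton, Prod.mk.injEq] at h4
    rw [h4.1]
    exact h652
  refine ⟨⟨r11, h11, by decide, h40⟩, ⟨h47, ⟨e47, r47⟩, all47⟩, ?_, ?_⟩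
  · intro h
    have := h 11 (by norm_num) e11 r11
    rw [h11, show val 2 e11 = 40 by decide] at this
    omega
  · intro h
    obtain ⟨R, hR, h1⟩ := h 47 (by norm_num)
    have := all47 R hR
    omega

end Pool.Agent.Results.MP_d302e1_nt.DoublingFails
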